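import Pool.Agent.N167.TR.Stm

/-! TR/7: bootstrap for sequences (adapted from Pool/Agent/N136/DY/Boot.lean). -/

namespace Pool.Agent.N97.TR

open Set Filter Topology Pool.Agent.N167.TR

theorem geom_lemma {B h : ℕ → ℝ} {ϑ ρ C : ℝ} {N : ℕ} (hρ : 0 < ρ) (hϑ0 : 0 ≤ ϑ) (hϑ : ϑ < ρ)
    (hB : ∀ n, N ≤ n → B (n + 1) ≤ h (n + 1) + ϑ * B n)
    (hh : ∀ n, h n ≤ C * ρ ^ n) : ∃ D : ℝ, 0 ≤ D ∧ ∀ n, N ≤ n → B n ≤ D * ρ ^ n := by
  set D : ℝ := max 0 (max (B N / ρ ^ N) (C * ρ / (ρ - ϑ))) with hD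
  have hD0 : 0 ≤ D := le_max_left _ _
  have hD1 : B N / ρ ^ N ≤ D := (le_max_left _ _).trans (le_max_right _ _)
  have hD2 : C * ρ / (ρ - ϑ) ≤ D := (le_max_right _ _).trans (le_max_right _ _)
  refine ⟨D, hD0, ?_⟩
  intro n hn
  induction n, hn using Nat.le_induction with
  | base => exact (div_le_iff₀ (by positivity)).1 hD1
  | succ n hn ih =>
    have h1 : C * ρ ≤ D * (ρ - ϑ) := (div_le_iff₀ (by linarith)).1 hD2
    have h2 : ϑ * B n ≤ ϑ * (D * ρ ^ n) := mul_le_mul_of_nonneg_left ih hϑ0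
    have h3 : 0 ≤ ρ ^ n := by positivity
    calc B (n + 1) ≤ h (n + 1) + ϑ * B n := hB n hn
      _ ≤ C * ρ ^ (n + 1) + ϑ * (D * ρ ^ n) := add_le_add (hh _) h2
      _ = (C * ρ + ϑ * D) * ρ ^ n := by ring
      _ ≤ (D * ρ) * ρ ^ n := by
          apply mul_le_mul_of_nonneg_right _ h3
          linarith
      _ = D * ρ ^ (n + 1) := by ring

theorem rapid_mul {a : ℕ → ℝ} (ha : Rapid a) {r K : ℝ} (hr : 0 < r) (hK : 0 ≤ K) :
    Rapid (fun n => K * (r ^ n * a n)) := by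
  intro s hs
  obtain ⟨C, hC⟩ := ha (s * r) (by positivity)
  refine ⟨K * C, fun n => ?_⟩
  have h := hC n
  calc s ^ n * (K * (r ^ n * a n)) = K * ((s * r) ^ n * a n) := by rw [mul_pow]; ring
    _ ≤ K * C := mul_le_mul_of_nonneg_left h hK

theorem rapid_geom {a : ℕ → ℝ} (ha : Rapid a) {ρ : ℝ} (hρ : 0 < ρ) :
    ∃ C : ℝ, ∀ n, a n ≤ C * ρ ^ n := by
  obtain ⟨C, hC⟩ := ha ρ⁻¹ (by positivity)
  refine ⟨C, fun n => ?_⟩
  have h := hC n
  rw [inv_pow, inv_mul_le_iff₀ (by positivity)] at h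
  linarith

theorem rapid_of_eventually {a : ℕ → ℝ}
    (h : ∀ ρ : ℝ, 0 < ρ → ∃ D : ℝ, ∃ N : ℕ, ∀ n, N ≤ n → a n ≤ D * ρ ^ n) : Rapid a := by
  intro s hs
  obtain ⟨D, N, hD⟩ := h s⁻¹ (by positivity)
  set S := ∑ n ∈ Finset.range N, |s ^ n * a n| with hS
  have hS0 : 0 ≤ S := Finset.sum_nonneg fun n _ => abs_nonneg _
  refine ⟨|D| + S, fun n => ?_⟩
  by_cases hn : N ≤ n
  · have h1 := hD n hn
    rw [inv_pow, ← div_eq_mul_inv, le_div_iff₀ (by positivity), mul_comm] at h1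
    have := le_abs_self D
    linarith
  · have h1 : |s ^ n * a n| ≤ S :=
      Finset.single_le_sum (f := fun n : ℕ => |s ^ n * a n|)
        (fun n _ => abs_nonneg _) (Finset.mem_range.2 (by omega))
    have := le_abs_self (s ^ n * a n)
    have := abs_nonneg D
    linarith

/-- TR/7 -/
theorem boot : S_boot := by
  intro B D ν θ a A h N₀ hB hD hν hθ ha haA hh hhr hrec hthr
  have hD0 : 0 < D := by linarith
  set b : ℕ → ℝ := fun n => B / D * (B ^ n * a n) / (ν * D ^ (n + 1)) with hb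
  set h' : ℕ → ℝ := fun n => B / D * (B ^ n * h n) / (ν * D ^ (n + 1)) with hh'
  have hb0 : ∀ n, 0 ≤ b n := fun n => by
    have := ha n
    simp only [hb]; positivity
  -- the recursion
  have hrecb : ∀ n, b (n + 1) ≤ h' (n + 1) + b n ^ 2 := by
    intro n
    have h2 : b (n + 1) ≤ B / D * (B ^ (n + 1) *
        (h (n + 1) + B ^ n * a n ^ 2 / (ν * D ^ (n + 1)))) / (ν * D ^ (n + 1 + 1)) := by
      simp only [hb]
      have := hrec n
      gcongr
    refine h2.trans (le_of_eq ?_)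
    simp only [hb, hh']
    field_simp
    ring
  have hhr' : Rapid h' := by
    have e : h' = fun n : ℕ => B / (D ^ 2 * ν) * ((B / D) ^ n * h n) := by
      funext n
      simp only [hh']
      rw [div_pow]
      field_simp
      ring
    rw [e]
    exact rapid_mul hhr (by positivity) (by positivity)
  -- b ≤ θ
  have hbθ : ∀ n, N₀ ≤ n → b n ≤ θ := by
    intro n hn
    simp only [hb]
    rw [div_le_iff₀ (by positivity)]
    refine le_trans ?_ (hthr n hn)
    have := haA n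
    gcongr
  set θ' : ℝ := max θ 0 with hθ'
  have hθ'0 : 0 ≤ θ' := le_max_right _ _
  have hθ'1 : θ' < 1 := max_lt hθ (by norm_num)
  -- step 1
  set ρ₁ : ℝ := (1 + θ') / 2 with hρ₁
  have hρ₁pos : 0 < ρ₁ := by rw [hρ₁]; linarith
  obtain ⟨C₁, hC₁⟩ := rapid_geom hhr' hρ₁pos
  obtain ⟨D₁, hD₁0, hD₁⟩ : ∃ D : ℝ, 0 ≤ D ∧ ∀ n, N₀ ≤ n → b n ≤ D * ρ₁ ^ n := by
    refine geom_lemma (h := h') (ϑ := θ') (C := C₁) hρ₁pos hθ'0 (by linarith) ?_ hC₁
    intro n hn
    have h1 := hrecb n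
    have h2 : b n ^ 2 ≤ θ' * b n := by
      rw [sq]
      exact mul_le_mul_of_nonneg_right ((hbθ n hn).trans (le_max_left _ _)) (hb0 n)
    linarith
  have hρ₁1 : ρ₁ < 1 := by rw [hρ₁]; linarith
  have hb_lim : Tendsto b atTop (𝓝 0) := by
    have h1 : Tendsto (fun n => D₁ * ρ₁ ^ n) atTop (𝓝 0) := by
      simpa using (tendsto_pow_atTop_nhds_zero_of_lt_one hρ₁pos.le hρ₁1).const_mul D₁
    refine tendsto_of_tendsto_of_tendsto_of_le_of_le' tendsto_const_nhds h1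
      (Eventually.of_forall hb0) ?_
    filter_upwards [eventually_ge_atTop N₀] with n hn using hD₁ n hn
  -- step 2
  have hbr : Rapid b := by
    apply rapid_of_eventually
    intro ρ hρ
    obtain ⟨C, hC⟩ := rapid_geom hhr' hρ
    have hev : ∀ᶠ n in atTop, b n < ρ / 2 := hb_lim.eventually_lt_const (by positivity)
    obtain ⟨N₁, hN₁⟩ := eventually_atTop.1 hev
    obtain ⟨D', -, hD'⟩ := geom_lemma (B := b) (h := h') (ϑ := ρ / 2) (ρ := ρ) (C := C) (N := N₁)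
      hρ (by positivity) (by linarith) (fun n hn => by
        have h1 := hrecb n
        have h2 : b n ^ 2 ≤ ρ / 2 * b n := by
          rw [sq]
          exact mul_le_mul_of_nonneg_right (hN₁ n hn).le (hb0 n)
        linarith) hC
    exact ⟨D', N₁, hD'⟩
  -- back to a
  have e : a = fun n : ℕ => (D ^ 2 * ν / B) * ((D / B) ^ n * b n) := by
    funext n
    simp only [hb]
    rw [div_pow]
    field_simp
    ring
  rw [e]
  exact rapid_mul hbr (by positivity) (by positivity)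

end Pool.Agent.N97.TR
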